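import Pool.Graph.R_pool_sql_team_seeded_35f281b4.K7.H11.GG.Var

/-! Genericity with overlapping groups of hyperplanes (after `Pool.Agent.K7.H11.GG.exists_h`). -/

set_option autoImplicit false

namespace Pool.Agent.H20.OV

open MvPolynomial Cardinal
open Pool.Agent.K7.H11.GG

/-- **Genericity**, with overlapping groups. -/
theorem exists_h' {m Q : ℕ} {I r Pm : Type} [Fintype I] [Fintype r] [Fintype Pm]
    (hQ : Fintype.card I + Fintype.card r ≤ Q)
    (q : MvPolynomial (I × Fin (m + 2)) ℚ) (hq : q ≠ 0)
    (N : Pm → Matrix (Fin (m + 2)) (Fin (m + 2)) (MvPolynomial r ℚ))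
    (hN : ∀ s, IsUnit (N s).det) :
    ∃ h : MvPolynomial (Fin Q × Fin (m + 2)) ℚ, h ≠ 0 ∧
      ∀ A : Fin Q × Fin (m + 2) → ℂ, aeval A h ≠ 0 → ∀ (s : Pm) (y : r → ℂ), ∃ g : I ↪ Fin Q,
          aeval (fun p : I × Fin (m + 2) => ∑ l, A (g p.1, l) * aeval y (N s l p.2)) q ≠ 0 := by
  classical
  have key : ∀ (s : Pm), ∃ h : MvPolynomial (Fin Q × Fin (m + 2)) ℚ, h ≠ 0 ∧
      (∀ A : Fin Q × Fin (m + 2) → ℂ, aeval A h ≠ 0 →
        ∀ (y : r → ℂ), ∃ g : I ↪ Fin Q,
          aeval (fun p : I × Fin (m + 2) => ∑ l, A (g p.1, l) * aeval y (N s l p.2)) q ≠ 0) := by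
    intro s
    have hgen : ∀ (E : Type) [Field E]
        [Algebra (FractionRing (MvPolynomial (Fin Q × Fin (m + 2)) ℚ)) E]
        [Algebra.IsAlgebraic (FractionRing (MvPolynomial (Fin Q × Fin (m + 2)) ℚ)) E]
        (y : r → E), ∃ g : I ↪ Fin Q, eval₂
          ((algebraMap (FractionRing (MvPolynomial (Fin Q × Fin (m + 2)) ℚ)) E).comp
            (algebraMap (MvPolynomial (Fin Q × Fin (m + 2)) ℚ)
              (FractionRing (MvPolynomial (Fin Q × Fin (m + 2)) ℚ)))) y
          (aeval (fun p : I × Fin (m + 2) => ∑ l, C (X (g p.1, l)) *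
          map (algebraMap ℚ (MvPolynomial (Fin Q × Fin (m + 2)) ℚ)) (N s l p.2)) q) ≠ 0 := by
      intro E _ _ _ y
      have : CharZero E := charZero_of_injective_algebraMap
        (algebraMap (FractionRing (MvPolynomial (Fin Q × Fin (m + 2)) ℚ)) E).injective
      obtain ⟨x, hx⟩ : ∃ x : Fin Q × Fin (m + 2) → E, ∀ i, x i =
        algebraMap (FractionRing (MvPolynomial (Fin Q × Fin (m + 2)) ℚ)) E
          (algebraMap (MvPolynomial (Fin Q × Fin (m + 2)) ℚ)
            (FractionRing (MvPolynomial (Fin Q × Fin (m + 2)) ℚ)) (X i)) :=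
        ⟨_, fun _ => rfl⟩
      have hxb : IsTranscendenceBasis ℚ x := by
        have := gen_basis (M := Fin Q × Fin (m + 2)) (E := E)
        convert this using 1
        exact funext hx
      obtain ⟨S, hS, hind⟩ := big_indep x hxb y
      obtain ⟨g, hg⟩ : ∃ g : I ↪ Fin Q, ∀ p : I × Fin (m + 2), (g p.1, p.2) ∈ S := by
        obtain ⟨U, hU⟩ : ∃ U : Finset (Fin Q), U = (Sᶜ.image fun i => i.1)ᶜ := ⟨_, rfl⟩
        have h1 : Fintype.card I ≤ Fintype.card U := by
          have h2 : (Sᶜ.image fun i : Fin Q × Fin (m + 2) => i.1).card ≤ Fintype.card r :=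
            Finset.card_image_le.trans hS
          rw [Fintype.card_coe, hU, Finset.card_compl, Fintype.card_fin]
          omega
        have h4 : ∀ i ∈ U, ∀ l, (i, l) ∈ S := by
          intro i hi l
          by_contra hp
          rw [hU, Finset.mem_compl] at hi
          exact hi (Finset.mem_image.2 ⟨(i, l), Finset.mem_compl.2 hp, rfl⟩)
        obtain ⟨g⟩ := Function.Embedding.nonempty_of_card_le h1
        exact ⟨g.trans (Function.Embedding.subtype _), fun p => h4 _ (g p.1).2 _⟩
      refine ⟨g, ?_⟩
      obtain ⟨F, hF⟩ : ∃ F : IntermediateField ℚ E, F = IntermediateField.adjoin ℚ (Set.range y) :=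
        ⟨_, rfl⟩
      rw [← hF] at hind
      obtain ⟨y', hy'⟩ : ∃ y' : r → F, ∀ j, (y' j : E) = y j :=
        ⟨fun j => ⟨y j, by rw [hF]; exact IntermediateField.subset_adjoin _ _ ⟨j, rfl⟩⟩,
          fun j => rfl⟩
      set N' : Matrix (Fin (m + 2)) (Fin (m + 2)) F :=
        (N s).map (aeval y' : MvPolynomial r ℚ →ₐ[ℚ] F) with hN'
      have hN'u : IsUnit N'.det := by
        have h1 : N'.det = (aeval y' : MvPolynomial r ℚ →ₐ[ℚ] F) (N s).det := by
          rw [AlgHom.map_det]
          rfl
        rw [h1]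
        exact (hN s).map _
      have h3 := sub_ne_zero hq N' hN'u
      intro h0
      apply h3
      have hind2 : AlgebraicIndependent F (fun p : I × Fin (m + 2) => x (g p.1, p.2)) := by
        have := hind.comp (fun p : I × Fin (m + 2) => (⟨(g p.1, p.2), hg p⟩ : S)) (by
          intro p p' hpp
          have := congrArg Subtype.val hpp
          simp only [Prod.mk.injEq, EmbeddingLike.apply_eq_iff_eq] at this
          exact Prod.ext this.1 this.2)
        exact this
      apply hind2
      rw [map_zero, ← h0]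
      have h1 : ∀ q : MvPolynomial (I × Fin (m + 2)) ℚ,
          (aeval (R := F) fun p : I × Fin (m + 2) => x (g p.1, p.2))
          (aeval (fun p : I × Fin (m + 2) => ∑ l, X (p.1, l) * C (N' l p.2)) q :
            MvPolynomial (I × Fin (m + 2)) F) =
          eval₂ ((algebraMap (FractionRing (MvPolynomial (Fin Q × Fin (m + 2)) ℚ)) E).comp
            (algebraMap (MvPolynomial (Fin Q × Fin (m + 2)) ℚ)
              (FractionRing (MvPolynomial (Fin Q × Fin (m + 2)) ℚ)))) y
          (aeval (fun p : I × Fin (m + 2) => ∑ l, C (X (g p.1, l)) *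
          map (algebraMap ℚ (MvPolynomial (Fin Q × Fin (m + 2)) ℚ)) (N s l p.2)) q) := by
        intro q
        induction q using MvPolynomial.induction_on with
        | C a =>
          rw [aeval_C, aeval_C]
          have h3 : algebraMap ℚ (MvPolynomial r (MvPolynomial (Fin Q × Fin (m + 2)) ℚ)) a =
            C (C a) := rfl
          have h4 : algebraMap ℚ (MvPolynomial (I × Fin (m + 2)) F) a = C (algebraMap ℚ F a) := rfl
          rw [h3, h4, eval₂_C, aeval_C]
          have h5 : ∀ (φ ψ : ℚ →+* E), φ = ψ := fun φ ψ => Subsingleton.elim _ _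
          exact DFunLike.congr_fun (h5 ((algebraMap F E).comp (algebraMap ℚ F))
            (((algebraMap (FractionRing (MvPolynomial (Fin Q × Fin (m + 2)) ℚ)) E).comp
            (algebraMap (MvPolynomial (Fin Q × Fin (m + 2)) ℚ)
              (FractionRing (MvPolynomial (Fin Q × Fin (m + 2)) ℚ)))).comp C)) a
        | add p q hp hq => rw [map_add, map_add, hp, hq, map_add, eval₂_add]
        | mul_X p v hp =>
          rw [map_mul, map_mul, hp, aeval_X, map_mul (aeval _), aeval_X, eval₂_mul]
          congr 1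
          rw [map_sum, eval₂_sum]
          refine Finset.sum_congr rfl fun l _ => ?_
          rw [map_mul, aeval_X, aeval_C, eval₂_mul, eval₂_C, eval₂_map]
          congr 1
          · exact hx _
          · have h6 : N' l v.2 = aeval y' (N s l v.2) := rfl
            rw [h6]
            have h7 : algebraMap F E (aeval y' (N s l v.2)) = aeval y (N s l v.2) := by
              have h8 := congrArg (fun f => f (N s l v.2)) (MvPolynomial.comp_aeval y' F.val)
              simp only [AlgHom.comp_apply] at h8
              have h9 : (fun i => F.val (y' i)) = y := funext hy'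
              rw [h9] at h8
              exact h8
            rw [h7, aeval_def]
            congr 1
            exact Subsingleton.elim _ _
      exact h1 q
    obtain ⟨h, hh0, hh⟩ := spread (R := MvPolynomial (Fin Q × Fin (m + 2)) ℚ)
      (K := FractionRing (MvPolynomial (Fin Q × Fin (m + 2)) ℚ)) (r := r) (s := I ↪ Fin Q)
      (fun g => aeval (fun p : I × Fin (m + 2) => ∑ l, C (X (g p.1, l)) *
        map (algebraMap ℚ (MvPolynomial (Fin Q × Fin (m + 2)) ℚ)) (N s l p.2)) q) hgen
    · refine ⟨h, hh0, fun A hA y => ?_⟩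
      obtain ⟨g, hg⟩ := hh (aeval A : MvPolynomial (Fin Q × Fin (m + 2)) ℚ →ₐ[ℚ] ℂ) hA y
      refine ⟨g, ?_⟩
      intro h0
      apply hg
      rw [← h0]
      have h1 : ∀ q : MvPolynomial (I × Fin (m + 2)) ℚ,
          eval₂ ((aeval A : MvPolynomial (Fin Q × Fin (m + 2)) ℚ →ₐ[ℚ] ℂ) : _ →+* ℂ) y
          (aeval (fun p : I × Fin (m + 2) => ∑ l, C (X (g p.1, l)) *
          map (algebraMap ℚ (MvPolynomial (Fin Q × Fin (m + 2)) ℚ)) (N s l p.2)) q) =
          aeval (fun p : I × Fin (m + 2) => ∑ l, A (g p.1, l) * aeval y (N s l p.2)) q := by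
        intro q
        induction q using MvPolynomial.induction_on with
        | C a =>
          rw [aeval_C, aeval_C]
          have h3 : algebraMap ℚ (MvPolynomial r (MvPolynomial (Fin Q × Fin (m + 2)) ℚ)) a =
            C (C a) := rfl
          rw [h3, eval₂_C]
          exact aeval_C _ _
        | add p q hp hq => rw [map_add, eval₂_add, hp, hq, map_add]
        | mul_X p v hp =>
          rw [map_mul, eval₂_mul, hp, aeval_X, map_mul, aeval_X]
          congr 1
          rw [eval₂_sum]
          refine Finset.sum_congr rfl fun l _ => ?_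
          rw [eval₂_mul, eval₂_C, eval₂_map]
          congr 1
          · exact aeval_X _ _
          · rw [aeval_def]
            congr 1
            exact Subsingleton.elim _ _
      exact h1 q
  choose h hh0 hh using key
  refine ⟨∏ s, h s, Finset.prod_ne_zero_iff.2 fun s _ => hh0 s, fun A hA s y => ?_⟩
  refine hh s A ?_ y
  intro h0
  apply hA
  rw [map_prod]
  exact Finset.prod_eq_zero (Finset.mem_univ s) h0

end Pool.Agent.H20.OV
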