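import Pool.Agent.H20.OV.Gen

/-! Entire curves ramified over generic hyperplanes are constant (after
`Pool.Agent.K7.H11.GG.orb`, with overlapping groups of hyperplanes). -/

set_option autoImplicit false

namespace Pool.Agent.H20.OV

open MvPolynomial
open Pool.Agent.Y190.OP (Phi Phi_smul Phi_inj)
open Pool.Agent.K7.H11.GG

variable {m : ℕ}

/-- **Entire curves ramified over generic hyperplanes.** -/
theorem orb' (m q : ℕ) (hq : 16 * (m + 1) ^ 2 + 2 * m + 1 ≤ q) :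
    ∃ h : MvPolynomial (Fin q × Fin (m + 2)) ℚ, h ≠ 0 ∧ ∀ A : Fin q → Fin (m + 2) → ℂ,
      aeval (fun p : Fin q × Fin (m + 2) => A p.1 p.2) h ≠ 0 → GenPos A ∧
      ∀ g : ℂ → Fin (m + 2) → ℂ, Differentiable ℂ g → (∀ z, g z ≠ 0) → (∀ i, Ram (A i) g) →
        ∀ z w, ∃ c : ℂ, g w = c • g z := by
  classical
  obtain ⟨qp, v', w', hqp, hv0, hw0, hw1, hqpQ⟩ := exists_q m (I := Fin (16 * (m + 1) ^ 2))
    (by rw [Fintype.card_fin])
  set V : Matrix (Fin (m + 2)) (Fin (m + 2)) ℚ := colMat v' w' with hV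
  have hVu : IsUnit V.det := colMat_det v' w' hw0 (isUnit_iff_ne_zero.2 hv0)
    (isUnit_iff_ne_zero.2 hw1)
  obtain ⟨h1, h10, hh1⟩ := exists_h' (Q := q) (I := Fin (16 * (m + 1) ^ 2))
    (r := Fin (m + 1) ⊕ Fin m) (by
      rw [Fintype.card_sum, Fintype.card_fin, Fintype.card_fin, Fintype.card_fin]
      omega) qp hqp (NN V) (NN_det hVu)
  refine ⟨h1 * ∏ s : Fin (m + 2) ↪ Fin q, minor s, ?_, ?_⟩
  · exact mul_ne_zero h10 (Finset.prod_ne_zero_iff.2 fun s _ => minor_ne s)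
  intro A hA
  rw [map_mul] at hA
  have hA1 := left_ne_zero_of_mul hA
  have hA2 := right_ne_zero_of_mul hA
  rw [map_prod] at hA2
  have hmq : m + 2 ≤ q := by
    refine le_trans ?_ hq
    nlinarith [Nat.zero_le (m ^ 2), Nat.zero_le m]
  have hgp : GenPos A := genPos_of hmq A fun s => Finset.prod_ne_zero_iff.1 hA2 s (Finset.mem_univ s)
  refine ⟨hgp, fun g hg hg0 hr => ?_⟩
  by_contra hcon
  push Not at hcon
  obtain ⟨za, zb, hab⟩ := hcon
  have hne : ¬ ∀ z, Phi (g z) = Phi (g 0) := by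
    intro h
    have h2 : Phi (g za) = Phi (g zb) := (h za).trans (h zb).symm
    obtain ⟨c, -, hc⟩ := Phi_inj (hg0 za) (hg0 zb) h2
    exact hab c hc
  obtain ⟨G, R, hG, hG0, hGne, hdata⟩ := brody_ram A hg hg0 hr hne
  obtain ⟨z0, j, k, hk, hjk⟩ := nonprop_wron hG hG0 hGne
  obtain ⟨π, y1, y2, s, t, u, hs, ht, hvπ, hwπ⟩ := normal_form hk hjk
  obtain ⟨g0, hg0q⟩ := hh1 _ hA1 π (Sum.elim y1 y2)
  set a : Fin (16 * (m + 1) ^ 2) → Fin (m + 2) → ℂ := fun i => A (g0 i) with ha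
  set a' : Fin (16 * (m + 1) ^ 2) → Fin (m + 2) → ℂ := fun i p =>
    ∑ l, a i l * MM V y1 y2 (π.symm l) p with ha'
  obtain ⟨Q, hQ, hQ0⟩ := hqpQ a' (by
    convert hg0q using 3
    funext p
    rw [ha']
    refine Finset.sum_congr rfl fun l _ => ?_
    rw [NN_aeval])
  set M := MM V y1 y2 with hM
  have hMu : IsUnit M.det := MM_unit hVu y1 y2
  set T : Matrix (Fin (m + 2)) (Fin (m + 2)) ℂ := M⁻¹.submatrix id π.symm with hT
  have hVal : Valid a (tau T Q) := by
    refine hQ.tau T fun i l => ?_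
    rw [ha', hT]
    simp only [Matrix.submatrix_apply, id, Finset.sum_mul, mul_assoc]
    rw [Finset.sum_comm]
    have h2 : ∀ x, ∑ p, a i x * (M (π.symm x) p * M⁻¹ p (π.symm l)) =
        a i x * (if x = l then 1 else 0) := by
      intro x
      rw [← Finset.mul_sum]
      congr 1
      have h3 := Matrix.mul_nonsing_inv M hMu
      have h4 := congrFun (congrFun h3 (π.symm x)) (π.symm l)
      rw [Matrix.mul_apply, Matrix.one_apply] at h4
      rw [h4]
      simp only [EmbeddingLike.apply_eq_iff_eq]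
    simp only [h2]
    simp
  have hgpa : GenPos a := by
    intro v hv
    have h2 := (hgp v hv).comp (fun i : {i // dot (a i) v = 0} =>
      (⟨g0 i.1, i.2⟩ : {i // dot (A i) v = 0})) (by
        intro i i' hii
        have h3 := Subtype.mk.inj hii
        exact Subtype.ext (g0.injective h3))
    exact h2
  have hz := dich (by rw [Fintype.card_fin]) a hgpa hVal hG hG0 hGne (fun z => by
    obtain ⟨j, v, w, t, h2, h3, h4, h5, h6, h7, h8⟩ := hdata z
    exact ⟨j, v, w, t, h2, h3, h4, fun i => h5 _, h6, h7, h8⟩) z0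
  rw [eval_tau] at hz
  have hTv : ∀ x : Fin (m + 2) → ℂ, T.mulVec x = M⁻¹.mulVec (x ∘ π) := by
    intro x
    rw [hT, Matrix.submatrix_mulVec_equiv]
    rfl
  have e0 : (V.map (algebraMap ℚ ℂ)).mulVec (Pi.single 0 1) = fun j => (v' j : ℂ) := by
    have : V.map (algebraMap ℚ ℂ) = colMat (fun i => algebraMap ℚ ℂ (v' i))
      (fun i => algebraMap ℚ ℂ (w' i)) := colMat_map (algebraMap ℚ ℂ) v' w'
    rw [this, colMat_zero]
    rfl
  have e1 : (V.map (algebraMap ℚ ℂ)).mulVec (Pi.single 1 1) = fun j => (w' j : ℂ) := by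
    have : V.map (algebraMap ℚ ℂ) = colMat (fun i => algebraMap ℚ ℂ (v' i))
      (fun i => algebraMap ℚ ℂ (w' i)) := colMat_map (algebraMap ℚ ℂ) v' w'
    rw [this, colMat_one]
    rfl
  have f0 := MM_inv hVu y1 y2 (Pi.single 0 1)
  have f1 := MM_inv hVu y1 y2 (Pi.single 1 1)
  rw [colMat_zero, e0] at f0
  rw [colMat_one, e1] at f1
  rw [hTv, hTv, hvπ, hwπ, Matrix.mulVec_smul, Matrix.mulVec_add, Matrix.mulVec_smul,
    Matrix.mulVec_smul, f0, f1] at hz
  rw [hQ.hom] at hz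
  exact (mul_ne_zero (mul_ne_zero (pow_ne_zero _ hs) (pow_ne_zero _ ht)) hQ0) hz

end Pool.Agent.H20.OV
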