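import Pool.Agent.H20.OV.Orb

/-! Hyperbolic varieties given by relations between powerful forms (after
`Pool.Agent.K7.H11.GG.main`). -/

set_option autoImplicit false

namespace Pool.Agent.H20.OV

open MvPolynomial
open Pool.Agent.K7.H11.GG

/-- **Hyperbolicity.** -/
theorem main' (n r : ℕ) (hn : 1 ≤ n) (hr : 16 * n ^ 2 + 2 * n ≤ n + 1 + r + 1) :
    ∃ h : MvPolynomial (Fin r × Fin (n + 1 + r)) ℚ, h ≠ 0 ∧
      ∀ C : Matrix (Fin r) (Fin (n + 1 + r)) ℂ,
        aeval (fun p : Fin r × Fin (n + 1 + r) => C p.1 p.2) h ≠ 0 →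
      ∀ (N d : ℕ), 1 ≤ d → ∀ (S : Set (MvPolynomial (Fin N) ℂ))
        (F : Fin (n + 1 + r) → MvPolynomial (Fin N) ℂ), (∀ p ∈ S, ∃ e, p.IsHomogeneous e) →
        (∀ i, (F i).IsHomogeneous d) → (∀ i, ∃ G H, F i = G ^ 2 * H ^ 3) →
        (∀ x, x ≠ 0 → (∀ p ∈ S, eval x p = 0) → ∃ i, eval x (F i) ≠ 0) →
        ∀ f : ℂ → Fin N → ℂ, Differentiable ℂ f → (∀ z, f z ≠ 0) →
          (∀ z, ∀ p ∈ S, eval (f z) p = 0) → (∀ z l, ∑ i, C l i * eval (f z) (F i) = 0) →
          ∀ z w, ∃ c : ℂ, f w = c • f z := by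
  obtain ⟨m, rfl⟩ : ∃ m, n = m + 1 := ⟨n - 1, by omega⟩
  obtain ⟨h0, hh0, hh⟩ := orb' m (m + 2 + r) (by omega)
  obtain ⟨B, h, hB, hh1, hC⟩ := exists_C h0 hh0
  refine ⟨h, hh1, ?_⟩
  intro C hCh N d hd S F hS hF hpow hne f hf hf0 hfS hfC
  obtain ⟨hdet, hA⟩ := hC C hCh
  obtain ⟨-, hcur⟩ := hh (fun i j => (ker C * B.map (algebraMap ℚ ℂ)) i j) hA
  set A : Matrix (Fin (m + 2 + r)) (Fin (m + 2)) ℂ := ker C * B.map (algebraMap ℚ ℂ) with hAdef
  have hBu : IsUnit (B.map (algebraMap ℚ ℂ)).det := by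
    have h1 : (B.map (algebraMap ℚ ℂ)).det = algebraMap ℚ ℂ B.det :=
      (RingHom.map_det (algebraMap ℚ ℂ) B).symm
    rw [h1]
    exact hB.map _
  set g : ℂ → Fin (m + 2) → ℂ := fun z =>
    ((B.map (algebraMap ℚ ℂ))⁻¹).mulVec fun j => eval (f z) (F (Fin.castAdd r j)) / (Cb C).det
    with hg
  have hgF : ∀ z i, dot (A i) (g z) = eval (f z) (F i) := by
    intro z i
    have h1 := ker_spec C hdet (fun i => eval (f z) (F i)) (fun l => hfC z l) i
    rw [h1]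
    change (A.mulVec (g z)) i = _
    rw [hAdef, hg]
    simp only
    rw [Matrix.mulVec_mulVec, Matrix.mul_assoc, Matrix.mul_nonsing_inv _ hBu, Matrix.mul_one]
    rfl
  have hgd : Differentiable ℂ g := by
    rw [differentiable_pi]
    intro i
    rw [hg]
    unfold Matrix.mulVec dotProduct
    simp only
    refine Differentiable.fun_sum fun j _ => ?_
    exact ((diff_eval hf _).div_const _).const_mul _
  have hg0 : ∀ z, g z ≠ 0 := by
    intro z h1
    obtain ⟨i, hi⟩ := hne (f z) (hf0 z) (hfS z)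
    apply hi
    rw [← hgF z i, h1]
    unfold dot
    simp
  have hram : ∀ i, Ram (fun j => A i j) g := by
    intro i z hz
    obtain ⟨P, Q, hPQ⟩ := hpow i
    have h1 : ∀ z, dot (fun j => A i j) (g z) = eval (f z) P ^ 2 * eval (f z) Q ^ 3 := by
      intro z
      have := hgF z i
      rw [hPQ, map_mul, map_pow, map_pow] at this
      exact this
    have h2 : (fun z => dot (fun j => A i j) (g z)) = fun z => eval (f z) P ^ 2 * eval (f z) Q ^ 3 :=
      funext h1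
    rw [h2]
    rw [h1] at hz
    exact deriv_powerful (diff_eval hf P) (diff_eval hf Q) hz
  have hcon := hcur g hgd hg0 hram
  refine const_of_image (by omega : d ≠ 0) hS hF hne hf hf0 hfS fun w => ?_
  obtain ⟨c, hc⟩ := hcon 0 w
  refine ⟨c, fun i => ?_⟩
  rw [← hgF w i, ← hgF 0 i, hc]
  unfold dot
  rw [Finset.mul_sum]
  refine Finset.sum_congr rfl fun j _ => ?_
  rw [Pi.smul_apply, smul_eq_mul]
  ring

end Pool.Agent.H20.OV
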